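import Pool.Agent.V11120.Fa04F
import Pool.Agent.V11120.Fa04G

/-!
# MP_fa04ef_co: pattern avoiding permutations with cycles of length at most three

The last inequality of Q1, `a_n^{1,2,3}(321) ≤ a_n^{1,2,3}(231)`, fails for `n = 38`.
-/

namespace Pool.Agent.Results.MP_fa04ef_co.LastInequalityFails

open Pool.Agent.V11120.Fa04

/-- The permutation `π` contains the pattern `σ` (given by its one-line notation): there are
positions `p 0 < p 1 < p 2` at which the values of `π` are in the same relative order as the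
values of `σ`. -/
def Contains {n : ℕ} (σ : Fin 3 → ℕ) (π : Equiv.Perm (Fin n)) : Prop :=
  ∃ p : Fin 3 → Fin n, StrictMono p ∧ ∀ s t : Fin 3, (π (p s) < π (p t) ↔ σ s < σ t)

/-- `a n S σ` is the number of permutations of an `n`-element chain that avoid `σ` and all of
whose cycles (fixed points included) have their length in `S`. The length of the cycle through
`i` is the minimal period of `i`. -/
noncomputable def a (n : ℕ) (S : Set ℕ) (σ : Fin 3 → ℕ) : ℕ :=
  Nat.card {π : Equiv.Perm (Fin n) //
    ¬ Contains σ π ∧ ∀ i : Fin n, Function.minimalPeriod π i ∈ S}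

theorem period_iff {n : ℕ} (π : Equiv.Perm (Fin n)) (i : Fin n) :
    Function.minimalPeriod π i ∈ ({1, 2, 3} : Set ℕ) ↔ (π (π i) = i ∨ π (π (π i)) = i) := by
  constructor
  · intro h
    have hp : Function.IsPeriodicPt π (Function.minimalPeriod π i) i :=
      Function.isPeriodicPt_minimalPeriod π i
    rcases h with h | h | h
    · rw [h] at hp
      have h1 : π i = i := hp
      left; rw [h1, h1]
    · rw [h] at hp
      left; exact hp
    · have h' : Function.minimalPeriod π i = 3 := h
      rw [h'] at hp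
      right; exact hp
  · rintro (h | h)
    · have hp : Function.IsPeriodicPt π 2 i := h
      have hd := hp.minimalPeriod_dvd
      rcases (Nat.dvd_prime Nat.prime_two).mp hd with h1 | h1
      · rw [h1]; simp
      · rw [h1]; simp
    · have hp : Function.IsPeriodicPt π 3 i := h
      have hd := hp.minimalPeriod_dvd
      rcases (Nat.dvd_prime Nat.prime_three).mp hd with h1 | h1
      · rw [h1]; simp
      · rw [h1]; simp

theorem upper (n : ℕ) : a n {1, 2, 3} ![2, 3, 1] ≤ u n := by
  classical
  obtain ⟨L, hL, hc⟩ := completeAll n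
  unfold a
  let A := {π : Equiv.Perm (Fin n) //
    ¬ Contains ![2, 3, 1] π ∧ ∀ i : Fin n, Function.minimalPeriod π i ∈ ({1, 2, 3} : Set ℕ)}
  let Φ : A → (Fin n → ℕ) := fun π i => (π.1 i).val
  have hinj : Function.Injective Φ := by
    intro x y h
    apply Subtype.ext
    apply Equiv.ext
    intro i
    apply Fin.ext
    exact congrFun h i
  let T : Finset (Fin n → ℕ) := (L.map (fun g => fun i : Fin n => g i.val)).toFinset
  have hT : T.card ≤ u n := by
    refine le_trans (List.toFinset_card_le _) ?_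
    rw [List.length_map, hL]
  have hsub : Set.range Φ ⊆ (T : Set (Fin n → ℕ)) := by
    rintro _ ⟨π, rfl⟩
    obtain ⟨π, hav, hcy⟩ := π
    let f : ℕ → ℕ := fun x => if h : x < n then (π ⟨x, h⟩).val else x
    have hf : ∀ x (h : x < n), f x = (π ⟨x, h⟩).val := fun x h => by
      show (if h : x < n then (π ⟨x, h⟩).val else x) = _
      rw [dif_pos h]
    have hg : G231 n f := {
      lt := fun i hi => by rw [hf i hi]; exact (π ⟨i, hi⟩).isLt
      inj := fun i j hi hj e => by
        rw [hf i hi, hf j hj] at e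
        have := π.injective (Fin.ext e)
        exact congrArg Fin.val this
      cyc := fun i hi => by
        have e1 : f i = (π ⟨i, hi⟩).val := hf i hi
        have e2 : f (f i) = (π (π ⟨i, hi⟩)).val := by
          rw [e1, hf _ (π ⟨i, hi⟩).isLt]
        have e3 : f (f (f i)) = (π (π (π ⟨i, hi⟩))).val := by
          rw [e2, hf _ (π (π ⟨i, hi⟩)).isLt]
        rcases (period_iff π ⟨i, hi⟩).mp (hcy ⟨i, hi⟩) with h | h
        · left; rw [e2, h]
        · right; rw [e3, h]
      av := fun i j k hij hjk hk ha hb => by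
        rw [hf i (by omega), hf j (by omega)] at ha
        rw [hf k hk, hf i (by omega)] at hb
        apply hav
        have ha' : π ⟨i, by omega⟩ < π ⟨j, by omega⟩ := ha
        have hb' : π ⟨k, hk⟩ < π ⟨i, by omega⟩ := hb
        have hc' := hb'.trans ha'
        refine ⟨![⟨i, by omega⟩, ⟨j, by omega⟩, ⟨k, hk⟩], ?_, ?_⟩
        · intro s t hst
          fin_cases s <;> fin_cases t <;> simp at hst ⊢ <;> omega
        · intro s t
          fin_cases s <;> fin_cases t <;>
            simp [ha', hb', hc', ha'.le, hb'.le, hc'.le] }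
    obtain ⟨g, hgL, hg2⟩ := hc f hg
    show Φ ⟨π, hav, hcy⟩ ∈ (T : Set (Fin n → ℕ))
    have : Φ ⟨π, hav, hcy⟩ = (fun i : Fin n => g i.val) := by
      funext i
      show (π i).val = g i.val
      rw [← hg2 i.val i.isLt, hf i.val i.isLt]
    rw [this]
    show (fun i : Fin n => g i.val) ∈ T
    rw [List.mem_toFinset, List.mem_map]
    exact ⟨g, hgL, rfl⟩
  have h1 : Nat.card A = (Set.range Φ).ncard := by
    rw [← Nat.card_range_of_injective hinj]
    rfl
  show Nat.card A ≤ u n
  rw [h1]
  refine le_trans (Set.ncard_le_ncard hsub (Finset.finite_toSet T)) ?_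
  rw [Set.ncard_coe_finset]
  exact hT

theorem lower' (n : ℕ) : cnt n [] ≤ a n {1, 2, 3} ![3, 2, 1] := by
  classical
  refine le_trans (start n) ?_
  unfold a
  rw [Nat.card_eq_fintype_card, Fintype.card_subtype]
  apply Finset.card_le_card
  intro π hπ
  rw [mem_Compl] at hπ
  rw [Finset.mem_filter]
  refine ⟨Finset.mem_univ _, ?_, ?_⟩
  · rintro ⟨p, hp, hpat⟩
    have h01 : p 0 < p 1 := hp (by decide)
    have h12 : p 1 < p 2 := hp (by decide)
    have a1 : π (p 1) < π (p 0) := (hpat 1 0).mpr (by decide)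
    have a2 : π (p 2) < π (p 1) := (hpat 2 1).mpr (by decide)
    exact hπ.gd.1 _ _ _ h01 h12 a1 a2
  · intro i
    rw [period_iff]
    exact hπ.gd.2 i

/-- **MP_fa04ef_co, Q1 is false.** For `n = 38` there are more 321-avoiding than 231-avoiding
permutations with all cycles of length at most three, so the four inequalities of Q1 do not all
hold for every `n ≥ 1`. -/
theorem result :
    a 38 {1, 2, 3} ![2, 3, 1] < a 38 {1, 2, 3} ![3, 2, 1] ∧
    ¬ (∀ n, 1 ≤ n →
        a n {1, 3} ![1, 3, 2] ≤ a n {1, 3} ![3, 2, 1] ∧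
        a n {1, 2, 3} ![1, 2, 3] ≤ a n {1, 2, 3} ![1, 3, 2] ∧
        a n {1, 2, 3} ![1, 3, 2] ≤ a n {1, 2, 3} ![3, 2, 1] ∧
        a n {1, 2, 3} ![3, 2, 1] ≤ a n {1, 2, 3} ![2, 3, 1]) := by
  have h1 : a 38 {1, 2, 3} ![2, 3, 1] < a 38 {1, 2, 3} ![3, 2, 1] := by
    refine lt_of_le_of_lt (upper 38) (lt_of_lt_of_le ?_ (lower' 38))
    rw [u_38, cnt_38]
    norm_num
  refine ⟨h1, fun h => ?_⟩
  have := (h 38 (by norm_num)).2.2.2
  omega

end Pool.Agent.Results.MP_fa04ef_co.LastInequalityFails
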